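import Pool.Agent.W205.K5.Stm0

/-! K5-P42 (helper489): the piece `k = 4`, `m = 2`. -/

set_option autoImplicit false

namespace Pool.Agent.W489.K5

open Pool.Agent.W205.K5

theorem rho4_lower {ρ : ℝ} (h0 : 0 < ρ) (h : ρ ^ 4 + (1 - ρ / 4) ^ 4 = 1) :
    8927 / 10000 ≤ ρ := by
  by_contra hlt
  push Not at hlt
  have h1 : ρ * (257 / 256 * ρ ^ 3 - ρ ^ 2 / 16 + 3 / 8 * ρ - 1) = 0 := by
    linear_combination h
  have h2 : 257 / 256 * ρ ^ 3 - ρ ^ 2 / 16 + 3 / 8 * ρ - 1 = 0 := by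
    rcases mul_eq_zero.1 h1 with h3 | h3
    · exact absurd h3 h0.ne'
    · exact h3
  have h4 : 0 < 8927 / 10000 - ρ := by linarith
  have h5 : 0 < 257 / 256 * ((8927 / 10000) ^ 2 + 8927 / 10000 * ρ + ρ ^ 2) -
      (8927 / 10000 + ρ) / 16 + 3 / 8 := by
    have : 0 ≤ 257 / 256 * ((8927 / 10000) ^ 2 + 8927 / 10000 * ρ + ρ ^ 2) := by positivity
    linarith
  have h6 := mul_pos h4 h5
  nlinarith [h6]

theorem piece42 (hL : S_LINE) (hC : S_CHORD) : PIECE 4 2 := by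
  intro w g hs h1 h2 ρ hρ0 hρ1 hρ
  have hKK2 : KK 2 = 1 / 2 := by unfold KK; norm_num
  have hKK3 : KK (2 + 1) = 8 / 9 := by unfold KK; norm_num
  have hch := hC 4 w g (by norm_num) hs 2 (by norm_num) (by norm_num) h1 h2
  have hline := hL 4 w g hs 1 (1 / 6) (2 / 3) le_rfl (by norm_num) (by norm_num) (by norm_num)
    (by
      intro n hn1 hn4
      interval_cases n <;> norm_num)
  rw [hKK2] at h1 hch
  rw [hKK3] at h2 hch
  have a0 := hs.add 0 (by norm_num)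
  have a1 := hs.add 1 (by norm_num)
  have a2 := hs.add 2 (by norm_num)
  have j2 := hs.jen 2 (by norm_num)
  have j3 := hs.jen 3 (by norm_num)
  have w4 := hs.wk
  norm_num at a0 a1 a2 j2 j3 hch hline
  have hρ' : ρ ^ 4 + (1 - ρ / 4) ^ 4 = 1 := by
    have := hρ
    norm_num at this
    exact this
  have hlow := rho4_lower hρ0 hρ'
  obtain ⟨x, hx⟩ : ∃ x : ℝ, x = 1 - ρ := ⟨_, rfl⟩
  have hx0 : 0 < x := by linarith
  have hTh : Th 4 ρ (fun j => w (4 - j)) = x ^ 4 + 4 * ρ * x ^ 3 * w 3 + 6 * ρ ^ 2 * x ^ 2 * w 2 +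
      4 * ρ ^ 3 * x * w 1 + ρ ^ 4 * w 0 := by
    rw [hx]
    unfold Th
    simp only [Finset.sum_range_succ, Finset.sum_range_zero]
    norm_num [Nat.choose, w4]
    ring
  have hone : 1 - ρ ^ 4 = x ^ 4 + 4 * ρ * x ^ 3 + 6 * ρ ^ 2 * x ^ 2 + 4 * ρ ^ 3 * x := by
    rw [hx]
    ring
  rw [hTh]
  have hw3 : 3 - g 2 ≤ w 3 := by linarith
  have hw2 : 2 - g 1 ≤ w 2 := by linarith
  have hw1 : 4 / 7 - g 0 / 7 ≤ w 1 := by linarith
  have hw0 : 4 / 21 + 5 / 42 * g 0 ≤ w 0 := by linarith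
  obtain ⟨c0, hc0⟩ : ∃ c : ℝ, c = ρ ^ 4 := ⟨_, rfl⟩
  obtain ⟨c1, hc1⟩ : ∃ c : ℝ, c = 4 * ρ ^ 3 * x := ⟨_, rfl⟩
  obtain ⟨c2, hc2⟩ : ∃ c : ℝ, c = 6 * ρ ^ 2 * x ^ 2 := ⟨_, rfl⟩
  obtain ⟨c3, hc3⟩ : ∃ c : ℝ, c = 4 * ρ * x ^ 3 := ⟨_, rfl⟩
  have p0 : 0 ≤ c0 := by rw [hc0]; positivity
  have p3 : 0 ≤ c3 := by rw [hc3]; positivity
  have p23 : 0 ≤ c2 - c3 := by
    have : c2 - c3 = 2 * ρ * x ^ 2 * (3 * ρ - 2 * x) := by rw [hc2, hc3]; ring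
    rw [this]
    have : 0 ≤ 3 * ρ - 2 * x := by linarith
    positivity
  have p2 : 0 ≤ c2 := by rw [hc2]; positivity
  have p12 : 0 ≤ c1 - c2 := by
    have : c1 - c2 = 2 * ρ ^ 2 * x * (2 * ρ - 3 * x) := by rw [hc1, hc2]; ring
    rw [this]
    have : 0 ≤ 2 * ρ - 3 * x := by linarith
    positivity
  -- the two end points
  have e1 : 0 ≤ c0 / 4 - c1 / 2 := by
    have : c0 / 4 - c1 / 2 = ρ ^ 3 / 4 * (ρ - 8 * x) := by rw [hc0, hc1]; ring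
    rw [this]
    have : 0 ≤ ρ - 8 * x := by linarith
    positivity
  have e2 : 0 ≤ 8 * c0 / 27 - 5 * c1 / 9 - c2 / 3 := by
    have : 8 * c0 / 27 - 5 * c1 / 9 - c2 / 3 = ρ ^ 2 * (14 / 27 * ρ ^ 2 + 16 / 9 * ρ - 2) := by
      rw [hc0, hc1, hc2, hx]; ring
    rw [this]
    have : 0 ≤ 14 / 27 * ρ ^ 2 + 16 / 9 * ρ - 2 := by nlinarith
    positivity
  have q1 := mul_nonneg (sub_nonneg.2 h2) e1
  have q2 := mul_nonneg (sub_nonneg.2 h1) e2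
  -- the products
  have m3 := mul_le_mul_of_nonneg_left hw3 p3
  have m3' := mul_le_mul_of_nonneg_left a1 p3
  have m2 := mul_le_mul_of_nonneg_left hw2 p23
  have m2' := mul_le_mul_of_nonneg_left a0 p2
  have m1 := mul_le_mul_of_nonneg_left hw1 p12
  have m0 := mul_le_mul_of_nonneg_left hw0 p0
  rw [hone, ← hc0, ← hc1, ← hc2, ← hc3]
  nlinarith [q1, q2, m3, m3', m2, m2', m1, m0]

end Pool.Agent.W489.K5
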